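import Pool.Agent.P.MP_a66f6f_co.Ped.Main

set_option autoImplicit false

namespace Pool.Agent.Results.MP_a66f6f_co.StahlLinearError

open Pool.Agent.P.MP_a66f6f_co

/-- Stahl's lower bound up to an additive error of at most 22 (n - b), for all parameters. -/
theorem result (n m a b N : ℕ) (hm : 2 * n ≤ m) (hb : 1 ≤ b) (hbn : b < n)
    (h : Nonempty (kneser m n →g kneser N (a * n + b))) :
    ((a : ℝ) + 1) * m - 2 * ((n : ℝ) - b) *
      min 12 (1 + ∑ j ∈ Finset.range (m - 2 * n), (1 : ℝ) / (max j (2 * n) : ℕ)) ≤ N :=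
  Ped.stahl_lin n m a b N hm hb hbn h

end Pool.Agent.Results.MP_a66f6f_co.StahlLinearError
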