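import Pool.Agent.P.MP_a66f6f_co.NR.All

set_option autoImplicit false

namespace Pool.Agent.Results.MP_a66f6f_co.StahlNearDiagonal

open Pool.Agent.P.MP_a66f6f_co

/-- Stahl's formula holds for every a as soon as b ^ 4 exceeds 10 ^ 9 n ^ 3 (m - 2 n). -/
theorem result (n m a b : ℕ) (hm : 2 * n ≤ m) (hb : b ≤ n)
    (h : 10 ^ 9 * n ^ 3 * (m - 2 * n) < b ^ 4) :
    IsLeast {N : ℕ | Nonempty (kneser m n →g kneser N (a * n + b))}
      ((a + 1) * m - 2 * (n - b)) :=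
  NR.q_MAIN n m a b hm hb h

end Pool.Agent.Results.MP_a66f6f_co.StahlNearDiagonal
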