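import Pool.Agent.P.MP_a66f6f_co.Main

set_option autoImplicit false

namespace Pool.Agent.Results.MP_a66f6f_co.StahlSqrtRange

open Pool.Agent.P.MP_a66f6f_co

/-- Stahl's formula holds for every a as soon as b exceeds about 2 (m - 2n - 1) sqrt n. -/
theorem result (n m a b d : ℕ) (hm : 2 * n ≤ m) (hb : b ≤ n)
    (hd : (2 * d + 2) ^ 2 ≤ n) (h : (m - 2 * n - 1) * n < b * d) :
    IsLeast {N : ℕ | Nonempty (kneser m n →g kneser N (a * n + b))}
      ((a + 1) * m - 2 * (n - b)) :=
  stahl_sqrt n m a b d hm hb hd h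

end Pool.Agent.Results.MP_a66f6f_co.StahlSqrtRange
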