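import Pool.Agent.P.MP_a66f6f_co.Hv.All

set_option autoImplicit false

namespace Pool.Agent.Results.MP_a66f6f_co.StahlTwoThirds

open Pool.Agent.P.MP_a66f6f_co

/-- Stahl's formula holds for every Kneser graph, every a and every b with n - b ≤ ρ(n) n, where
ρ(n) ≥ 1/16 for all n and ρ(n) tends to 2/3. -/
theorem result : ∃ ρ : ℕ → ℝ, (∀ n, 1 / 16 ≤ ρ n) ∧
    Filter.Tendsto ρ Filter.atTop (nhds (2 / 3)) ∧
    ∀ n m a b : ℕ, 1 ≤ n → 2 * n ≤ m → b ≤ n → (n : ℝ) - b ≤ ρ n * n →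
      IsLeast {N : ℕ | Nonempty (kneser m n →g kneser N (a * n + b))}
        ((a + 1) * m - 2 * (n - b)) :=
  Hv.stahl_two_thirds

end Pool.Agent.Results.MP_a66f6f_co.StahlTwoThirds
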